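import Mathlib
import Pool.Agent.ETB.Mn2

namespace Pool.Agent.Results.MP_a09a03_nt.BidegreeIso

open Polynomial Pool.Agent.ISG Pool.Agent.CST Pool.Agent.CS2 Pool.Agent.ETB

theorem result (g r s : ℕ) (hg : 0 < g) (hr : 0 < r) (a : Fin (g + 1) → ℤ)
    (ha : Function.Injective a) (b : Fin (r + 1) → ℤ) (hb : Function.Injective b)
    (f : Fin s → ℤ[X]) (hf : ∀ j, (f j).Monic ∧ 0 < (f j).natDegree)
    (hsq : Squarefree (((∏ l, (X - C (b l))) * ∏ j, f j).map (Int.castRingHom ℚ))) :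
    ∃ C₀ : ℕ, (Even g → Pool.Agent.DNS.AlmostAll fun c => TwoGoodPrimes g C₀ c) ∧
      ∀ c : ℤ, TwoGoodPrimes g C₀ c →
      SmoothCurve a b c ∧
      ∀ (K : Type) [Field K] [CharZero K] (x w : K), Transcendental ℚ x →
        IntermediateField.adjoin ℚ {x, w} = ⊤ →
        (c : K) * (∏ i, (x - a i)) * ∏ l, (w - b l) = 1 →
        ∃ (t : Fin g → Kˣ) (u : Fin r → Kˣ),
          (∀ i, (t i : K) = (x - a i.succ) / (x - a 0)) ∧
          (∀ l, (u l : K) = (w - b l.succ) / (w - b 0)) ∧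
          wSlices w b f ⊓ unramifiedK2 K =
            Submodule.span ℚ (Set.range fun q : Fin r × Fin g => sb (u q.1) (t q.2)) ∧
          (∀ l i, sb (u l) (t i) ∈ integralK2 K) ∧
          IndependentRegulators fun q : Fin r × Fin g => sb (u q.1) (t q.2) :=
  main2 hg hr a ha b hb f hf hsq

end Pool.Agent.Results.MP_a09a03_nt.BidegreeIso
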