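import Mathlib
import Pool.Agent.CS2.RatB

namespace Pool.Agent.Results.MP_a09a03_nt.EveryCurve

open Pool.Agent.ISG Pool.Agent.CST Pool.Agent.CS2

theorem result (K : Type) [Field K] [CharZero K] (g : Kˣ) (hg : Transcendental ℚ (g : K))
    (hK : FiniteDimensional (IntermediateField.adjoin ℚ {(g : K)}) K) :
    Module.Finite ℚ ↥((slice g ⊔ ratSlice g) ⊓ unramifiedK2 K) ∧
      Module.Finite ℚ ↥((slice g ⊔ ratSlice g) ⊓ integralK2 K) := by
  have h1 := rat_main hg hK
  refine ⟨h1, ?_⟩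
  have h2 : (slice g ⊔ ratSlice g) ⊓ integralK2 K ≤ (slice g ⊔ ratSlice g) ⊓ unramifiedK2 K :=
    inf_le_inf_left _ (integral_le K)
  exact Module.Finite.of_injective (Submodule.inclusion h2) (Submodule.inclusion_injective h2)

end Pool.Agent.Results.MP_a09a03_nt.EveryCurve
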