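import Mathlib
import Pool.Agent.ETU.KMn3
import Pool.Agent.ETU.KRat
import Pool.Agent.ETU.KDns
import Pool.Agent.ETV.Mn

namespace Pool.Agent.Results.MP_a09a03_nt.EveryTuple

open Polynomial Pool.Agent.ISG Pool.Agent.CST Pool.Agent.CS2 Pool.Agent.ETU

theorem result (k K : Type) [Field k] [CharZero k] [FiniteDimensional ℚ k] [Field K] [CharZero K]
    [Algebra k K] (x : Kˣ) (m : ℕ) (hm : m.Prime) (hk : Module.finrank ℚ k < m)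
    (hK : Module.finrank (IntermediateField.adjoin k {(x : K)}) K = m)
    (O : ValuationSubring K) (hO : IsDiscreteValuationRing O) (hQ : ∀ q : ℚ, (q : K) ∈ O)
    (hx : (x : K) ∉ O) (t : K) (ht : O.valuation (x * t ^ m) = 1) :
    ∃ s ρ : ℕ → ℕ, (∃ B : ℕ, ∀ p, B < p → s p = 0 ∧ ρ p = 0) ∧
      (∀ (c : ℚ) (p₁ p₂ : ℕ), p₁ ≠ p₂ → GoodPrime m s ρ c p₁ → GoodPrime m s ρ c p₂ →
        ∀ (r : ℕ) (f : Fin r → ℤ[X]), GoodTuple p₁ p₂ f → FinitePart x f c) ∧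
      (2 < m → ∀ (r : ℕ) (f : Fin r → ℤ[X]), (∀ i, (f i).Monic ∧ 0 < (f i).natDegree) →
        Squarefree ((∏ i, f i).map (Int.castRingHom ℚ)) →
        DNS.AlmostAll (fun c => FinitePart x f c) ∧
        (ETV.OneZero (x : K) ∨ ETV.IndepAtZero f →
          DNS.AlmostAll fun c => tupleSlices x c f ⊓ unramifiedK2 K = ⊥)) := by
  have hr := Pool.Agent.ETU.rational_point (k := k) hm.pos hK (O := O) ⟨hO, hQ⟩ hx ht
  obtain ⟨s, ρ, hsρ, h⟩ := Pool.Agent.ETU.main_uniform hm hk hK (O := O) ⟨hO, hQ⟩ hr hx ht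
  have hmain : ∀ (c : ℚ) (p₁ p₂ : ℕ), p₁ ≠ p₂ → GoodPrime m s ρ c p₁ → GoodPrime m s ρ c p₂ →
      ∀ (r : ℕ) (f : Fin r → ℤ[X]), GoodTuple p₁ p₂ f → FinitePart x f c := by
    intro c p₁ p₂ h12 h1 h2 r f h5
    obtain ⟨hp₁, hm₁, hs₁, hρ₁⟩ := h1
    obtain ⟨hp₂, hm₂, hs₂, hρ₂⟩ := h2
    have : Fact p₁.Prime := ⟨hp₁⟩
    have : Fact p₂.Prime := ⟨hp₂⟩
    obtain ⟨h5, h6, h7, h8⟩ := h5
    have h9 := h p₁ p₂ h12 hm₁ hm₂ c hs₁ hs₂ hρ₁ hρ₂ r f h5 h6 h7 h8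
    rw [← tupleSlices_eq] at h9
    refine ⟨h9, ?_⟩
    have h10 := inf_le_inf_left (tupleSlices x c f) (integral_le K)
    exact Module.Finite.of_injective (Submodule.inclusion h10) (Submodule.inclusion_injective h10)
  refine ⟨s, ρ, hsρ, hmain, fun h2 r f hf hsq => ⟨?_, fun h0 =>
    Pool.Agent.ETV.main_almost hm hk hK (O := O) ⟨hO, hQ⟩ hr hx ht h2 r f h0 hf hsq⟩⟩
  refine DNS.AlmostAll.mono
    (almostAll_good hm h2 hsρ (fun i => (hf i).1) (fun i => (hf i).2) hsq) ?_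
  rintro c ⟨p₁, p₂, h12, h3, h4, h5⟩
  exact hmain c p₁ p₂ h12 h3 h4 r f h5

end Pool.Agent.Results.MP_a09a03_nt.EveryTuple
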