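import Mathlib
import Pool.Agent.ETO.Mn4

namespace Pool.Agent.Results.MP_a09a03_nt.TupleIso

open Polynomial Pool.Agent.ISG Pool.Agent.CST Pool.Agent.DNS Pool.Agent.ETI Pool.Agent.ETO

theorem result (g s : ℕ) (hg : 0 < g) (a : Fin (g + 1) → ℤ) (ha : Function.Injective a) (κ : ℤ)
    (hκ : |κ| ≤ 2) (d : Fin (g + 1) → ℕ) (hd : ∀ i, d i = 1 ∨ (d i = 2 ∧ |κ| = 2))
    (f : Fin s → ℤ[X]) (hf : ∀ j, (f j).Monic ∧ 0 < (f j).natDegree)
    (hsq : Squarefree ((X * ∏ j, f j).map (Int.castRingHom ℚ)))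
    (hcop : IsCoprime ((∏ j, f j).map (Int.castRingHom ℚ)) (X ^ 2 - C (κ : ℚ) * X + 1)) :
    ∃ C₀ : ℕ, (Odd (∑ i, d i) → AlmostAll (TwoPrimes d C₀)) ∧ ∀ c : ℤ, TwoPrimes d C₀ c →
      HypGenus g (C (c : ℚ) * ∏ i, (X - C (a i : ℚ)) ^ d i + C (κ : ℚ)) ∧
      ∀ (K : Type) [Field K] [CharZero K] (x w : K), Transcendental ℚ x →
        IntermediateField.adjoin ℚ {x, w} = ⊤ → w + w⁻¹ = c * ∏ i, (x - a i) ^ d i + κ →
        ∃ (v : Kˣ) (t : Fin g → Kˣ), (v : K) = w ∧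
          (∀ i, (t i : K) = (x - a i.succ) / (x - a 0)) ∧
          wSlices w f ⊓ unramifiedK2 K = Submodule.span ℚ (Set.range fun i => sb (t i) v) ∧
          (∀ i, sb (t i) v ∈ integralK2 K) ∧ IndependentRegulators fun i => sb (t i) v :=
  main4 hg a ha κ hκ d hd f hf hsq hcop

end Pool.Agent.Results.MP_a09a03_nt.TupleIso
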